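import Pool.Agent.W580.SH.Final
import Pool.Agent.W212.SH.Low

/-! MP_ba6ea3_co, Q1, for all `m`: the shifted Heller constant is smaller than the Heller
constant. -/

namespace Pool.Agent.Results.MP_ba6ea3_co.ShiftedHeller

open Pool.Agent.W580.SH

/-- For every `m ≥ 1` the maxima defining `h_s(m)` and `h(1,m)` exist, `h(1,m) = m^2+m+1`
(Heller), `h_s(m) ≤ m^2+m`, and so `h_s(m) < h(1,m)`. -/
theorem result : ∀ m : ℕ, 1 ≤ m →
    IsGreatest (ShiftedSizes m) (shiftedHeller m) ∧
    IsGreatest (HellerSizes m) (hellerConst m) ∧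
    hellerConst m = m ^ 2 + m + 1 ∧
    shiftedHeller m ≤ m ^ 2 + m ∧
    shiftedHeller m < hellerConst m :=
  fun m hm => all Pool.Agent.W212.SH.main m hm

end Pool.Agent.Results.MP_ba6ea3_co.ShiftedHeller
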